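import Mathlib

set_option autoImplicit false

namespace Pool.Agent.Results.MP_88cfb8_co.Periodic

/-- Player I wins the subtraction game on `{L, …, M}` from a pile of `n` stones -/
def W (L M : ℕ) (n : ℕ) : Prop :=
  ∃ (a : ℕ) (_ : 1 ≤ a ∧ L ≤ a ∧ a ≤ M ∧ a ≤ n), ¬ W L M (n - a)
termination_by n
decreasing_by omega

open Classical in
/-- the pair of cash thresholds `(f_I n, f_II n)` -/
noncomputable def f (L M : ℕ) (n : ℕ) : ℕ × ℕ :=
  if n < L then (0, 0) else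
    (if W L M n then
      sInf {x | ∃ (a : ℕ) (_ : 1 ≤ a ∧ L ≤ a ∧ a ≤ M ∧ a ≤ n),
        ¬ W L M (n - a) ∧ x = (f L M (n - a)).2 + a}
    else
      sInf {x | ∃ (a : ℕ) (_ : 1 ≤ a ∧ L ≤ a ∧ a ≤ M ∧ a ≤ n),
        (f L M (n - a)).1 = sSup {y | ∃ (b : ℕ) (_ : 1 ≤ b ∧ L ≤ b ∧ b ≤ M ∧ b ≤ n),
          y = (f L M (n - b)).1} ∧ x = (f L M (n - a)).2 + a},
    sSup {y | ∃ (b : ℕ) (_ : 1 ≤ b ∧ L ≤ b ∧ b ≤ M ∧ b ≤ n), y = (f L M (n - b)).1})
termination_by n
decreasing_by all_goals omega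

variable {L M : ℕ}

theorem f2_spec (hL : 1 ≤ L) (hM : L ≤ M) {n : ℕ} (hn : L ≤ n) :
    (∃ a, L ≤ a ∧ a ≤ M ∧ a ≤ n ∧ (f L M n).2 = (f L M (n - a)).1) ∧
      ∀ a, L ≤ a → a ≤ M → a ≤ n → (f L M (n - a)).1 ≤ (f L M n).2 := by
  have hb : BddAbove {y | ∃ (b : ℕ) (_ : 1 ≤ b ∧ L ≤ b ∧ b ≤ M ∧ b ≤ n), y = (f L M (n - b)).1} := by
    refine (((Set.finite_Iic M).image fun b => (f L M (n - b)).1).subset ?_).bddAbove
    rintro _ ⟨b, h, rfl⟩
    exact ⟨b, h.2.2.1, rfl⟩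
  have he : (f L M n).2 =
      sSup {y | ∃ (b : ℕ) (_ : 1 ≤ b ∧ L ≤ b ∧ b ≤ M ∧ b ≤ n), y = (f L M (n - b)).1} := by
    rw [f, if_neg (by omega)]
  constructor
  · obtain ⟨a, h, e⟩ := Nat.sSup_mem (s := {y | ∃ (b : ℕ) (_ : 1 ≤ b ∧ L ≤ b ∧ b ≤ M ∧ b ≤ n), y = (f L M (n - b)).1})
      ⟨_, L, ⟨hL, le_rfl, hM, hn⟩, rfl⟩ hb
    exact ⟨a, h.2.1, h.2.2.1, h.2.2.2, he.trans e⟩
  · intro a h1 h2 h3
    rw [he]
    exact le_csSup hb ⟨a, ⟨by omega, h1, h2, h3⟩, rfl⟩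

theorem f1_win (hL : 1 ≤ L) {n : ℕ} (hw : W L M n) :
    (∃ a, L ≤ a ∧ a ≤ M ∧ a ≤ n ∧ ¬ W L M (n - a) ∧ (f L M n).1 = (f L M (n - a)).2 + a) ∧
      ∀ a, L ≤ a → a ≤ M → a ≤ n → ¬ W L M (n - a) → (f L M n).1 ≤ (f L M (n - a)).2 + a := by
  have hw' := hw
  rw [W] at hw'
  obtain ⟨c, hc, hc'⟩ := hw'
  have he : (f L M n).1 = sInf {x | ∃ (a : ℕ) (_ : 1 ≤ a ∧ L ≤ a ∧ a ≤ M ∧ a ≤ n),
      ¬ W L M (n - a) ∧ x = (f L M (n - a)).2 + a} := by
    rw [f, if_neg (by omega), if_pos hw]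
  constructor
  · obtain ⟨a, h, e1, e2⟩ := Nat.sInf_mem (s := {x | ∃ (a : ℕ) (_ : 1 ≤ a ∧ L ≤ a ∧ a ≤ M ∧ a ≤ n),
      ¬ W L M (n - a) ∧ x = (f L M (n - a)).2 + a}) ⟨_, c, hc, hc', rfl⟩
    exact ⟨a, h.2.1, h.2.2.1, h.2.2.2, e1, he.trans e2⟩
  · intro a h1 h2 h3 h4
    rw [he]
    exact Nat.sInf_le ⟨a, ⟨by omega, h1, h2, h3⟩, h4, rfl⟩

theorem f1_lose (hL : 1 ≤ L) (hM : L ≤ M) {n : ℕ} (hn : L ≤ n) (hw : ¬ W L M n) :
    ∃ a, L ≤ a ∧ a ≤ M ∧ a ≤ n ∧ (f L M (n - a)).1 = (f L M n).2 ∧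
      (f L M n).1 = (f L M (n - a)).2 + a := by
  have he2 : (f L M n).2 =
      sSup {y | ∃ (b : ℕ) (_ : 1 ≤ b ∧ L ≤ b ∧ b ≤ M ∧ b ≤ n), y = (f L M (n - b)).1} := by
    rw [f, if_neg (by omega)]
  have he : (f L M n).1 = sInf {x | ∃ (a : ℕ) (_ : 1 ≤ a ∧ L ≤ a ∧ a ≤ M ∧ a ≤ n),
      (f L M (n - a)).1 = (f L M n).2 ∧ x = (f L M (n - a)).2 + a} := by
    rw [he2, f, if_neg (by omega), if_neg hw]
  obtain ⟨c, c1, c2, c3, c4⟩ := (f2_spec hL hM hn).1
  obtain ⟨a, h, e1, e2⟩ := Nat.sInf_mem (s := {x | ∃ (a : ℕ) (_ : 1 ≤ a ∧ L ≤ a ∧ a ≤ M ∧ a ≤ n),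
    (f L M (n - a)).1 = (f L M n).2 ∧ x = (f L M (n - a)).2 + a})
    ⟨_, c, ⟨by omega, c1, c2, c3⟩, c4.symm, rfl⟩
  exact ⟨a, h.2.1, h.2.2.1, h.2.2.2, e1, he.trans e2⟩

theorem W_iff (hL : 1 ≤ L) (hM : L ≤ M) (k : ℕ) :
    ∀ r, r < L + M → (W L M (k * (L + M) + r) ↔ L ≤ r) := by
  have step : ∀ b, (∀ r, r < L → ¬ W L M (b + r)) → ∀ r, r < L + M → (W L M (b + r) ↔ L ≤ r) := by
    intro b h r hr
    refine ⟨fun hw => by_contra fun hlt => h r (by omega) hw, fun hl => ?_⟩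
    rw [W]
    refine ⟨min r M, by omega, ?_⟩
    rw [show b + r - min r M = b + (r - min r M) by omega]
    exact h _ (by omega)
  induction k with
  | zero =>
    refine step _ fun r hr hw => ?_
    rw [W] at hw
    obtain ⟨a, h, -⟩ := hw
    omega
  | succ k ih =>
    refine step _ fun r hr hw => ?_
    rw [W] at hw
    obtain ⟨a, h, hw⟩ := hw
    rw [Nat.succ_mul, show k * (L + M) + (L + M) + r - a = k * (L + M) + (L + M + r - a) by omega,
      ih _ (by omega)] at hw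
    omega

theorem lose_res (hL : 1 ≤ L) (hM : L ≤ M) {k s a : ℕ} (h1 : L ≤ s) (h2 : s < L + M) (h3 : a ≤ M)
    (h4 : a ≤ k * (L + M) + s) (hw : ¬ W L M (k * (L + M) + s - a)) : a ≤ s ∧ s - a < L := by
  by_cases h : a ≤ s
  · rw [show k * (L + M) + s - a = k * (L + M) + (s - a) by omega,
      W_iff hL hM k _ (by omega)] at hw
    omega
  · exfalso
    cases k with
    | zero => omega
    | succ k =>
      rw [Nat.succ_mul, show k * (L + M) + (L + M) + s - a = k * (L + M) + (L + M + s - a) by omega,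
        W_iff hL hM k _ (by omega)] at hw
      omega

theorem A12 (hL : 1 ≤ L) (hM : L ≤ M) (k : ℕ)
    (h : ∀ r, r < L → (f L M (k * (L + M) + r)).2 + min (L - 1) (r + k * (M - L)) = k * M + r)
    (s : ℕ) (h1 : L ≤ s) (h2 : s < L + M) :
    (f L M (k * (L + M) + s)).1 + min (L - 1) (min (L - 1) (s - L) + k * (M - L)) = k * M + s := by
  obtain ⟨⟨a, a1, a2, a3, a4, a5⟩, hle⟩ := f1_win hL ((W_iff hL hM k s h2).2 h1)
  obtain ⟨b1, b2⟩ := lose_res hL hM h1 h2 a2 a3 a4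
  rw [show k * (L + M) + s - a = k * (L + M) + (s - a) by omega] at a5
  have c1 := h _ b2
  have e : k * (L + M) + s - (s - min (L - 1) (s - L)) = k * (L + M) + min (L - 1) (s - L) := by
    omega
  have c2 := hle (s - min (L - 1) (s - L)) (by omega) (by omega) (by omega) (by
    rw [e, W_iff hL hM k _ (by omega)]; omega)
  rw [e] at c2
  have c3 := h (min (L - 1) (s - L)) (by omega)
  omega

theorem A1 (hL : 1 ≤ L) (hM : L ≤ M) (k : ℕ) :
    ∀ r, r < L → (f L M (k * (L + M) + r)).2 + min (L - 1) (r + k * (M - L)) = k * M + r := by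
  induction k with
  | zero =>
    intro r hr
    rw [f, if_pos (by omega)]
    omega
  | succ k ih =>
    intro r hr
    simp only [Nat.succ_mul]
    obtain ⟨⟨a, a1, a2, -, a4⟩, hle⟩ :=
      f2_spec hL hM (n := k * (L + M) + (L + M) + r) (by omega)
    rw [show k * (L + M) + (L + M) + r - a = k * (L + M) + (L + M + r - a) by omega] at a4
    have c1 := A12 hL hM k ih (L + M + r - a) (by omega) (by omega)
    have c2 := hle L le_rfl hM (by omega)
    rw [show k * (L + M) + (L + M) + r - L = k * (L + M) + (M + r) by omega] at c2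
    have c3 := A12 hL hM k ih (M + r) (by omega) (by omega)
    omega

theorem big (hL : 1 ≤ L) (hM : L < M) {k : ℕ} (hk : L ≤ k) :
    (∀ s, L ≤ s → s < L + M → (f L M (k * (L + M) + s)).1 + (L - 1) = k * M + s) ∧
    ∀ r, r < L → (∃ j, r ≤ j ∧ j ≤ r + (M - L) ∧
        (f L M ((k + 1) * (L + M) + r)).1 = (f L M (k * (L + M) + j)).1 + L) ∧
      (f L M (k * (L + M) + (r + (M - L)))).1 + L ≤ (f L M ((k + 1) * (L + M) + r)).1 := by
  have hD : k ≤ k * (M - L) := Nat.le_mul_of_pos_right k (by omega)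
  have h1 : ∀ s, L ≤ s → s < L + M → (f L M (k * (L + M) + s)).1 + (L - 1) = k * M + s := by
    intro s a b
    have := A12 hL hM.le k (A1 hL hM.le k) s a b
    omega
  refine ⟨h1, fun r hr => ?_⟩
  have c1 := A1 hL hM.le (k + 1) r hr
  obtain ⟨a, a1, a2, -, a4, a5⟩ := f1_lose hL hM.le (n := (k + 1) * (L + M) + r)
    (by rw [Nat.succ_mul]; omega) (by rw [W_iff hL hM.le _ _ (by omega)]; omega)
  simp only [Nat.succ_mul] at c1 a4 a5 ⊢
  rw [show k * (L + M) + (L + M) + r - a = k * (L + M) + (L + M + r - a) by omega] at a4 a5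
  have c2 := h1 (L + M + r - a) (by omega) (by omega)
  obtain rfl : a = L := by omega
  obtain ⟨⟨c, d1, d2, -, d4⟩, hle⟩ :=
    f2_spec hL hM.le (n := k * (a + M) + (a + M + r - a)) (by omega)
  have d5 := hle a le_rfl hM.le (by omega)
  rw [show k * (a + M) + (a + M + r - a) - a = k * (a + M) + (r + (M - a)) by omega] at d5
  rw [show k * (a + M) + (a + M + r - a) - c = k * (a + M) + (M + r - c) by omega] at d4
  exact ⟨⟨M + r - c, by omega, by omega, by omega⟩, by omega⟩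

theorem descend (P : ℕ → ℕ → Prop) (K : ℕ) (hs : ∀ k m, K ≤ k → P k (m + 1) → P (k + 1) m)
    (hm : ∀ k, P k 0 → P k 1) (m : ℕ) (h0 : P K m) : ∀ k, K + m ≤ k → P k 0 := by
  have h1 : ∀ m k, K ≤ k → P k m → P (k + m) 0 := by
    intro m
    induction m with
    | zero => exact fun k _ h => h
    | succ m ih =>
      intro k hk h
      have := ih (k + 1) (by omega) (hs k m hk h)
      rwa [show k + 1 + m = k + (m + 1) by ring] at this
  intro k hk
  induction k, hk using Nat.le_induction with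
  | base => exact h1 m K le_rfl h0
  | succ k hk ih => exact hs k 0 (by omega) (hm k ih)

theorem formula (hL : 1 ≤ L) (hM : L < M) : ∃ K, ∀ k, K ≤ k → ∀ j, j < L + M →
    (f L M (k * (L + M) + j)).1 + (L - 1) = k * M + j := by
  obtain ⟨m, hm⟩ : ∃ m, ∀ r, r < L → (f L M (L * (L + M) + r)).1 + (L - 1) ≤ L * M + max r m := by
    obtain ⟨m, hm⟩ := ((Set.finite_Iio L).image
      fun r => (f L M (L * (L + M) + r)).1 + (L - 1)).bddAbove
    refine ⟨m, fun r hr => ?_⟩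
    have := hm ⟨r, hr, rfl⟩
    simp only at this
    omega
  have hU := descend (fun k m => ∀ r, r < L →
    (f L M (k * (L + M) + r)).1 + (L - 1) ≤ k * M + max r m) L (fun k m hk h r hr => by
      obtain ⟨h1, h2⟩ := big hL hM hk
      obtain ⟨⟨j, j1, j2, j3⟩, -⟩ := h2 r hr
      rw [j3, Nat.succ_mul k M]
      by_cases hj : j < L
      · have := h j hj; omega
      · have := h1 j (by omega) (by omega); omega)
    (fun k h r hr => by have := h r hr; omega) m hm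
  have hV := descend (fun k m => ∀ r, r < L → m ≤ r →
    k * M + r ≤ (f L M (k * (L + M) + r)).1 + (L - 1)) L (fun k m hk h r hr hmr => by
      obtain ⟨h1, h2⟩ := big hL hM hk
      obtain ⟨-, j3⟩ := h2 r hr
      rw [Nat.succ_mul k M]
      by_cases hj : r + (M - L) < L
      · have := h _ hj (by omega); omega
      · have := h1 (r + (M - L)) (by omega) (by omega); omega)
    (fun k h r hr _ => h r hr (Nat.zero_le _)) L (fun r hr h => by omega)
  refine ⟨L + m + L, fun k hk j hj => ?_⟩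
  by_cases h : j < L
  · have := hU k (by omega) j h
    have := hV k (by omega) j h (Nat.zero_le _)
    omega
  · exact (big hL hM (by omega)).1 j (by omega) hj

theorem first (hL : 1 ≤ L) (hM : L ≤ M) :
    ∃ T, ∀ n, T ≤ n → (f L M (n + L + M)).1 = (f L M n).1 + M := by
  rcases hM.eq_or_lt with rfl | hM
  · refine ⟨0, fun n _ => ?_⟩
    obtain ⟨a, a1, a2, -, a4⟩ := (f2_spec hL le_rfl (n := n + L) (by omega)).1
    obtain rfl : a = L := by omega
    rw [show n + a - a = n by omega] at a4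
    rw [← a4]
    by_cases hw : W a a (n + a + a)
    · obtain ⟨b, b1, b2, -, -, b5⟩ := (f1_win hL hw).1
      obtain rfl : b = a := by omega
      rwa [show n + b + b - b = n + b by omega] at b5
    · obtain ⟨b, b1, b2, -, -, b5⟩ := f1_lose hL le_rfl (by omega) hw
      obtain rfl : b = a := by omega
      rwa [show n + b + b - b = n + b by omega] at b5
  · obtain ⟨K, hK⟩ := formula hL hM
    refine ⟨K * (L + M), fun n hn => ?_⟩
    have hp : 0 < L + M := by omega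
    have h1 : K ≤ n / (L + M) := (Nat.le_div_iff_mul_le hp).2 hn
    have h2 := hK _ h1 _ (Nat.mod_lt n hp)
    have h3 := hK (n / (L + M) + 1) (by omega) _ (Nat.mod_lt n hp)
    have h4 := Nat.div_add_mod' n (L + M)
    rw [h4] at h2
    simp only [Nat.succ_mul] at h3
    rw [show n / (L + M) * (L + M) + (L + M) + n % (L + M) = n + L + M by omega] at h3
    omega

/-- The cash thresholds of the interval subtraction game are eventually quasi-periodic. -/
theorem result (L M : ℕ) (hL : 1 ≤ L) (hM : L ≤ M) : ∃ T, ∀ n, T ≤ n →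
    (f L M (n + L + M)).1 = (f L M n).1 + M ∧ (f L M (n + L + M)).2 = (f L M n).2 + M := by
  obtain ⟨T, hT⟩ := first hL hM
  refine ⟨T + M, fun n hn => ⟨hT n (by omega), ?_⟩⟩
  obtain ⟨⟨a, a1, a2, -, a4⟩, ha⟩ := f2_spec hL hM (n := n) (by omega)
  obtain ⟨⟨b, b1, b2, -, b4⟩, hb⟩ := f2_spec hL hM (n := n + L + M) (by omega)
  have c1 := ha b b1 b2 (by omega)
  have c2 := hb a a1 a2 (by omega)
  have c3 := hT (n - a) (by omega)
  have c4 := hT (n - b) (by omega)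
  rw [show n - a + L + M = n + L + M - a by omega] at c3
  rw [show n - b + L + M = n + L + M - b by omega] at c4
  omega

end Pool.Agent.Results.MP_88cfb8_co.Periodic
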